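import Pool.Agent.Y685.SY.Stm2
import Pool.Agent.Y685.SY.Prep
import Pool.Agent.Y141.SY.Ext

/-!
The cut-off mollified forms of a continuous family (job SY2-SMEAR).
-/

set_option autoImplicit false
set_option linter.all false
set_option maxSynthPendingDepth 3

open scoped Manifold ContDiff Topology ENNReal
open MeasureTheory Set Metric Filter
open Pool.Agent.Y519.AS (TwoForm)
open Pool.Agent.Helper831 (coordVec)
open Pool.Agent.Y685.SY
open Pool.Agent.Y141.SY (dE chart_id cd_fderiv)

namespace Pool.Agent.Y968.SY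

section euc

variable {E : Type} [NormedAddCommGroup E] [InnerProductSpace ℝ E] [FiniteDimensional ℝ E]
  [MeasurableSpace E] [BorelSpace E]

theorem integrable_ind {V : Type} [NormedAddCommGroup V] [NormedSpace ℝ V]
    (ρ : ContDiffBump (0 : E)) {F : E → V} (hF : Integrable F) (x : E) :
    Integrable (fun z => ρ.normed volume (x - z) • F z) := by
  obtain ⟨C, hC⟩ := rho_bdd ρ
  exact Integrable.bdd_smul (μ := volume) (f := F) (φ := fun y => ρ.normed volume (x - y)) hF C
    ((ρ.continuous_normed.comp (continuous_const.sub continuous_id)).aestronglyMeasurable)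
    (Filter.Eventually.of_forall fun y => hC _)

theorem moll_alt (ρ : ContDiffBump (0 : E)) {K : Set E} (hK : IsCompact K)
    {A : E → E →L[ℝ] E →L[ℝ] ℝ} (hA : IntegrableOn A K) (hal : ∀ z a, A z a a = 0) (x a : E) :
    moll ρ K A x a a = 0 := by
  have h0 : Integrable (K.indicator A) := (integrable_indicator_iff hK.measurableSet).2 hA
  have h1 := integrable_ind ρ h0 x
  unfold moll
  rw [ContinuousLinearMap.integral_apply h1 a]
  have h2 : Integrable (fun y => (ρ.normed volume (x - y) • K.indicator A y) a) :=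
    h1.apply_continuousLinearMap a
  rw [ContinuousLinearMap.integral_apply h2 a]
  have h3 : (fun y => (ρ.normed volume (x - y) • K.indicator A y) a a) = fun _ => (0 : ℝ) := by
    funext y
    by_cases hy : y ∈ K
    · rw [indicator_of_mem hy]
      show ρ.normed volume (x - y) * A y a a = 0
      rw [hal, mul_zero]
    · rw [indicator_of_notMem hy, smul_zero]
      rfl
  rw [h3, integral_zero]

theorem moll_cont {V : Type} [NormedAddCommGroup V] [NormedSpace ℝ V]
    (ρ : ContDiffBump (0 : E)) {K : Set E} (hK : IsCompact K)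
    {A : E → V} (hA : IntegrableOn A K) : Continuous (moll ρ K A) := by
  have h0 : Integrable (K.indicator A) := (integrable_indicator_iff hK.measurableSet).2 hA
  obtain ⟨C, hC⟩ := rho_bdd ρ
  unfold moll
  refine continuous_of_dominated (bound := fun z => C * ‖K.indicator A z‖) ?_ ?_ ?_ ?_
  · intro x
    exact (integrable_ind ρ h0 x).aestronglyMeasurable
  · intro x
    refine Eventually.of_forall fun z => ?_
    rw [norm_smul]
    exact mul_le_mul_of_nonneg_right (hC _) (norm_nonneg _)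
  · exact h0.norm.const_mul C
  · refine Eventually.of_forall fun z => ?_
    exact (ρ.continuous_normed.comp (continuous_id.sub continuous_const)).smul continuous_const

theorem moll_diff {V : Type} [NormedAddCommGroup V] [NormedSpace ℝ V]
    (ρ : ContDiffBump (0 : E)) {K : Set E} (hK : IsCompact K) : ∃ C : ℝ≥0∞, C ≠ ⊤ ∧
    ∀ (A B : E → V), IntegrableOn A K → IntegrableOn B K → ∀ x,
      edist (moll ρ K A x) (moll ρ K B x) ≤ C * ∫⁻ y in K, ‖A y - B y‖ₑ := by
  obtain ⟨C, hC⟩ := rho_bdd ρ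
  refine ⟨ENNReal.ofReal C, ENNReal.ofReal_ne_top, ?_⟩
  intro A B hA hB x
  have hA0 : Integrable (K.indicator A) := (integrable_indicator_iff hK.measurableSet).2 hA
  have hB0 : Integrable (K.indicator B) := (integrable_indicator_iff hK.measurableSet).2 hB
  rw [edist_eq_enorm_sub]
  unfold moll
  rw [← integral_sub (integrable_ind ρ hA0 x) (integrable_ind ρ hB0 x)]
  refine (enorm_integral_le_lintegral_enorm _).trans ?_
  rw [← lintegral_indicator hK.measurableSet, ← lintegral_const_mul' _ _ ENNReal.ofReal_ne_top]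
  refine lintegral_mono fun y => ?_
  show ‖ρ.normed volume (x - y) • K.indicator A y - ρ.normed volume (x - y) • K.indicator B y‖ₑ ≤
    ENNReal.ofReal C * K.indicator (fun y => ‖A y - B y‖ₑ) y
  rw [← smul_sub]
  by_cases hy : y ∈ K
  · rw [indicator_of_mem hy, indicator_of_mem hy, indicator_of_mem hy, enorm_smul]
    refine mul_le_mul' ?_ le_rfl
    rw [← ofReal_norm_eq_enorm]
    exact ENNReal.ofReal_le_ofReal (hC _)
  · rw [indicator_of_notMem hy, indicator_of_notMem hy, sub_zero, smul_zero, enorm_zero]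
    exact zero_le

/-- joint continuity -/
theorem moll_joint {V : Type} [NormedAddCommGroup V] [NormedSpace ℝ V]
    (ρ : ContDiffBump (0 : E)) {K : Set E} (hK : IsCompact K) {ι : Type} [TopologicalSpace ι]
    {A : ι → E → V} (hA : ∀ t, IntegrableOn (A t) K)
    (hc : ∀ t₀, Tendsto (fun t => ∫⁻ y in K, ‖A t y - A t₀ y‖ₑ) (𝓝 t₀) (𝓝 0)) :
    Continuous (fun q : ι × E => moll ρ K (A q.1) q.2) := by
  obtain ⟨C, hC, hd⟩ := moll_diff (V := V) ρ hK
  rw [continuous_iff_continuousAt]
  rintro ⟨t₀, x₀⟩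
  unfold ContinuousAt
  rw [tendsto_iff_edist_tendsto_0]
  have h1 : Tendsto (fun q : ι × E => C * ∫⁻ y in K, ‖A q.1 y - A t₀ y‖ₑ) (𝓝 (t₀, x₀)) (𝓝 0) := by
    have h2 := ENNReal.Tendsto.const_mul (a := C) (hc t₀) (Or.inr hC)
    rw [mul_zero] at h2
    exact h2.comp continuousAt_fst
  have h3 : Tendsto (fun q : ι × E => edist (moll ρ K (A t₀) q.2) (moll ρ K (A t₀) x₀))
      (𝓝 (t₀, x₀)) (𝓝 0) := by
    have h4 : ContinuousAt (fun q : ι × E => moll ρ K (A t₀) q.2) (t₀, x₀) :=
      ((moll_cont ρ hK (hA t₀)).comp continuous_snd).continuousAt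
    exact tendsto_iff_edist_tendsto_0.1 h4
  have h5 := h1.add h3
  rw [add_zero] at h5
  refine tendsto_of_tendsto_of_tendsto_of_le_of_le tendsto_const_nhds h5
    (fun _ => zero_le) (fun q => ?_)
  refine (edist_triangle _ (moll ρ K (A t₀) q.2) _).trans ?_
  exact add_le_add (hd _ _ (hA _) (hA _) _) le_rfl

end euc

section man

variable {E : Type} [NormedAddCommGroup E] [InnerProductSpace ℝ E] [FiniteDimensional ℝ E]
  {M : Type} [TopologicalSpace M] [ChartedSpace E M]

/-- a continuous bilinear form as a bilinear map -/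
noncomputable def bl (b : E →L[ℝ] E →L[ℝ] ℝ) : E →ₗ[ℝ] E →ₗ[ℝ] ℝ :=
  LinearMap.mk₂ ℝ (fun u w => b u w)
    (fun v v' w => by rw [map_add]; rfl)
    (fun c v w => by rw [map_smul]; rfl)
    (fun v w w' => by rw [map_add])
    (fun c v w => by rw [map_smul])

open scoped Classical in
/-- extension by zero of the 2-form `b` -/
noncomputable def extB (e₀ : OpenPartialHomeomorph M E) (b : E → E →L[ℝ] E →L[ℝ] ℝ)
    (hb : ∀ x a, b x a a = 0) : TwoForm E M where
  form p := if p ∈ e₀.source then (bl (b (e₀ p))).compl₁₂ (dE e₀ p) (dE e₀ p) else 0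
  alt p v := by
    split_ifs
    · exact hb _ _
    · rfl

theorem extB_out {e₀ : OpenPartialHomeomorph M E} {b : E → E →L[ℝ] E →L[ℝ] ℝ}
    {hb : ∀ x a, b x a a = 0} {e : OpenPartialHomeomorph M E} {y : E}
    (hy : e.symm y ∉ e₀.source) (u w : E) : (extB e₀ b hb).coeff e y u w = 0 := by
  unfold TwoForm.coeff extB
  simp only [if_neg hy]
  rfl

theorem extB_zero {e₀ : OpenPartialHomeomorph M E} {b : E → E →L[ℝ] E →L[ℝ] ℝ}
    {hb : ∀ x a, b x a a = 0} {e : OpenPartialHomeomorph M E} {y : E}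
    (hy : e.symm y ∈ e₀.source → b (e₀ (e.symm y)) = 0) (u w : E) :
    (extB e₀ b hb).coeff e y u w = 0 := by
  by_cases h : e.symm y ∈ e₀.source
  · unfold TwoForm.coeff extB
    simp only [if_pos h]
    show b (e₀ (e.symm y)) _ _ = 0
    rw [hy h]
    rfl
  · exact extB_out h u w

variable [IsManifold 𝓘(ℝ, E) ∞ M]

theorem extB_in {e₀ : OpenPartialHomeomorph M E} (he : e₀ ∈ atlas E M)
    {b : E → E →L[ℝ] E →L[ℝ] ℝ} {hb : ∀ x a, b x a a = 0}
    {y : E} (hy : y ∈ e₀.target) (u w : E) : (extB e₀ b hb).coeff e₀ y u w = b y u w := by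
  unfold TwoForm.coeff extB
  simp only [if_pos (e₀.map_target hy)]
  show b (e₀ (e₀.symm y)) (mfderiv 𝓘(ℝ, E) 𝓘(ℝ, E) e₀ (e₀.symm y) (coordVec e₀ y u))
    (mfderiv 𝓘(ℝ, E) 𝓘(ℝ, E) e₀ (e₀.symm y) (coordVec e₀ y w)) = b y u w
  rw [chart_id he hy, chart_id he hy, e₀.right_inv hy]

/-- in another chart -/
theorem extB_tr (h : S_TRANS E M) {e₀ e : OpenPartialHomeomorph M E} (he₀ : e₀ ∈ atlas E M)
    (he : e ∈ atlas E M) {b : E → E →L[ℝ] E →L[ℝ] ℝ} {hb : ∀ x a, b x a a = 0} {y : E}
    (hy : y ∈ trD e e₀) (u w : E) : (extB e₀ b hb).coeff e y u w =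
      b (tr e e₀ y) (fderiv ℝ (tr e e₀) y u) (fderiv ℝ (tr e e₀) y w) := by
  obtain ⟨-, -, hm, -, h1, -, -⟩ := h e he e₀ he₀
  rw [h1 _ y hy, extB_in he₀ (hm hy).1]

/-- near the points outside the chart -/
theorem far [T2Space M] {e₀ e : OpenPartialHomeomorph M E} {χ : E → ℝ}
    (hc : HasCompactSupport χ) (hs : tsupport χ ⊆ e₀.target) {y : E} (hy : y ∈ e.target)
    (h : e.symm y ∉ e₀.source) :
    ∀ᶠ z in 𝓝 y, e.symm z ∈ e₀.source → χ (e₀ (e.symm z)) = 0 := by
  have hC : IsCompact (e₀.symm '' tsupport χ) := hc.isCompact.image_of_continuousOn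
    (e₀.continuousOn_symm.mono hs)
  have hCs : e₀.symm '' tsupport χ ⊆ e₀.source := by
    rintro _ ⟨z, hz, rfl⟩
    exact e₀.map_target (hs hz)
  have h1 : e.symm y ∈ (e₀.symm '' tsupport χ)ᶜ := fun hh => h (hCs hh)
  have h2 : ∀ᶠ z in 𝓝 y, e.symm z ∈ (e₀.symm '' tsupport χ)ᶜ :=
    (e.symm.continuousAt hy).eventually_mem (hC.isClosed.isOpen_compl.mem_nhds h1)
  filter_upwards [h2] with z hz hz'
  by_contra hne
  exact hz ⟨e₀ (e.symm z), subset_tsupport _ hne, e₀.left_inv hz'⟩

end man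

section main

variable (E : Type) [NormedAddCommGroup E] [InnerProductSpace ℝ E] [FiniteDimensional ℝ E]
  (M : Type) [TopologicalSpace M] [ChartedSpace E M] [IsManifold 𝓘(ℝ, E) ∞ M]
  [MeasurableSpace E] [BorelSpace E]

theorem t_SMEAR (h : S_TRANS E M) : S_SMEAR E M := by
  intro _ e₀ he₀ χ hχ hχc hχs K hKt hK ρ ι _ θ hint hcont
  -- the forms in the chart
  set m : ι → E → E →L[ℝ] E →L[ℝ] ℝ := fun t => moll ρ K (co (θ t) e₀) with hm
  have hal : ∀ t x a, (χ x • m t x) a a = 0 := by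
    intro t x a
    have : m t x a a = 0 := moll_alt ρ hK (hint t) (fun z a => (θ t).alt _ _) x a
    show χ x * m t x a a = 0
    rw [this, mul_zero]
  have hmc : Continuous (fun q : ι × E => m q.1 q.2) := moll_joint ρ hK hint hcont
  refine ⟨fun t => extB e₀ (fun x => χ x • m t x) (hal t), ?_, ?_, ?_⟩
  · intro e he y hy hy' t u w
    rw [extB_tr h he₀ he ⟨hy, hy'⟩]
    rfl
  · intro e he y hy hy' t u w
    exact extB_out hy' u w
  · intro e he u w
    rintro ⟨t₀, y₀⟩ ⟨-, hy₀⟩
    refine ContinuousAt.continuousWithinAt ?_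
    have hy₀' : y₀ ∈ e.target := hy₀
    by_cases hy' : e.symm y₀ ∈ e₀.source
    · obtain ⟨ho, hcd, -⟩ := h e he e₀ he₀
      have hyD : y₀ ∈ trD e e₀ := ⟨hy₀', hy'⟩
      have hf : ContDiffAt ℝ ∞ (tr e e₀) y₀ := hcd.contDiffAt (ho.mem_nhds hyD)
      have c1 : ContinuousAt (fun q : ι × E => tr e e₀ q.2) (t₀, y₀) :=
        ContinuousAt.comp (f := fun q : ι × E => q.2) (g := tr e e₀) hf.continuousAt
          continuousAt_snd
      have c2 : ContinuousAt (fun q : ι × E => fderiv ℝ (tr e e₀) q.2) (t₀, y₀) :=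
        ContinuousAt.comp (f := fun q : ι × E => q.2) (g := fderiv ℝ (tr e e₀))
          (cd_fderiv hf).continuousAt continuousAt_snd
      have c3 : ContinuousAt (fun q : ι × E => m q.1 (tr e e₀ q.2)) (t₀, y₀) := by
        have := ContinuousAt.comp (f := fun q : ι × E => (q.1, tr e e₀ q.2))
          (g := fun q : ι × E => m q.1 q.2) (x := (t₀, y₀)) hmc.continuousAt
          (continuousAt_fst.prodMk c1)
        exact this
      have c4 : ContinuousAt (fun q : ι × E => χ (tr e e₀ q.2)) (t₀, y₀) :=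
        ContinuousAt.comp (f := fun q : ι × E => tr e e₀ q.2) (g := χ)
          hχ.continuous.continuousAt c1
      have c5 : ContinuousAt (fun q : ι × E => χ (tr e e₀ q.2) *
          m q.1 (tr e e₀ q.2) (fderiv ℝ (tr e e₀) q.2 u) (fderiv ℝ (tr e e₀) q.2 w))
          (t₀, y₀) :=
        c4.mul ((c3.clm_apply (c2.clm_apply continuousAt_const)).clm_apply
          (c2.clm_apply continuousAt_const))
      refine c5.congr ?_
      have ho2 : ∀ᶠ q : ι × E in 𝓝 (t₀, y₀), q.2 ∈ trD e e₀ :=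
        continuousAt_snd.eventually_mem (ho.mem_nhds hyD)
      filter_upwards [ho2] with q hq
      have := extB_tr h he₀ he (b := fun x => χ x • m q.1 x) (hb := hal q.1) hq u w
      exact this.symm
    · have hz := far hχc hχs hy₀' hy'
      have hz2 : ∀ᶠ q : ι × E in 𝓝 (t₀, y₀), e.symm q.2 ∈ e₀.source →
          χ (e₀ (e.symm q.2)) = 0 := (continuousAt_snd (p := (t₀, y₀))).eventually hz
      have c0 : ContinuousAt (fun _ : ι × E => (0 : ℝ)) (t₀, y₀) := continuousAt_const
      refine c0.congr ?_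
      filter_upwards [hz2] with q hq
      refine (extB_zero (fun hq' => ?_) u w).symm
      show χ (e₀ (e.symm q.2)) • m q.1 (e₀ (e.symm q.2)) = 0
      rw [hq hq', zero_smul]

end main

end Pool.Agent.Y968.SY
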